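import Pool.Agent.H90.SPW.Targets

/-!
# MP_81fcf0_co, row RC
-/

set_option autoImplicit false

namespace Pool.Agent.H89.SPW

open Finset Pool.Agent.H90.SPW
open scoped BigOperators Classical

lemma rc_split (k h : ℕ) (f : ℕ → ℝ) :
    ∑ t ∈ range (k * h), f t = ∑ i ∈ range k, ∑ r ∈ range h, f (i * h + r) := by
  induction k with
  | zero => simp
  | succ k ih => rw [Nat.succ_mul, Finset.sum_range_add, ih, Finset.sum_range_succ]

lemma comm3 {B Y E : Type} [Fintype B] [Fintype Y] [Fintype E] (R : Finset ℕ)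
    (f : B → Y → ℕ → E → ℝ) :
    ∑ b, ∑ y, ∑ r ∈ R, ∑ e, f b y r e = ∑ y, ∑ r ∈ R, ∑ e, ∑ b, f b y r e := by
  rw [Finset.sum_comm]
  refine Finset.sum_congr rfl fun y _ => ?_
  rw [Finset.sum_comm]
  refine Finset.sum_congr rfl fun r _ => ?_
  rw [Finset.sum_comm]

/-- the algebra for one block -/
lemma rc_block {X E Y : Type} [Fintype X] [Fintype E] [Fintype Y] (R : Finset ℕ) (u w : X → ℝ)
    (p : ℕ → X → E → ℝ) (us : Y → E → ℝ) (q : ℕ → E → Y → X → ℝ) :
    ∑ y, ∑ r ∈ R, ∑ e, (∑ a, u a * p r a e) * (us y e * ∑ d, q r e y d * w d) =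
      ∑ a, ∑ b, u a * (∑ y, ∑ r ∈ R, ∑ e, p r a e * us y e * q r e y b) * w b := by
  have h1 : ∀ a b, u a * (∑ y, ∑ r ∈ R, ∑ e, p r a e * us y e * q r e y b) * w b =
      ∑ y, ∑ r ∈ R, ∑ e, u a * p r a e * us y e * q r e y b * w b := by
    intro a b
    rw [Finset.mul_sum, Finset.sum_mul]
    refine Finset.sum_congr rfl fun y _ => ?_
    rw [Finset.mul_sum, Finset.sum_mul]
    refine Finset.sum_congr rfl fun r _ => ?_
    rw [Finset.mul_sum, Finset.sum_mul]
    refine Finset.sum_congr rfl fun e _ => ?_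
    ring
  have h2 : ∀ a, ∑ b, u a * (∑ y, ∑ r ∈ R, ∑ e, p r a e * us y e * q r e y b) * w b =
      ∑ y, ∑ r ∈ R, ∑ e, ∑ b, u a * p r a e * us y e * q r e y b * w b := by
    intro a
    rw [Finset.sum_congr rfl fun b _ => h1 a b]
    exact comm3 R fun b y r e => u a * p r a e * us y e * q r e y b * w b
  rw [Finset.sum_congr rfl fun a _ => h2 a,
    comm3 R fun a y r e => ∑ b, u a * p r a e * us y e * q r e y b * w b]
  refine Finset.sum_congr rfl fun y _ => Finset.sum_congr rfl fun r _ =>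
    Finset.sum_congr rfl fun e _ => ?_
  rw [Finset.sum_mul]
  refine Finset.sum_congr rfl fun a _ => ?_
  rw [Finset.mul_sum, Finset.mul_sum]
  refine Finset.sum_congr rfl fun b _ => ?_
  ring

theorem pf_RC : T_RC := by
  intro X E Y _ _ _ c Lam k h' hh x x'
  -- the amplified uses of the reversed chain
  have hOcc : ∀ a b y, c.rev.OccA Lam h' b a y = ∑ r ∈ range h', ∑ e,
      c.P r a (c.src e) * c.use y e * (if c.rev.Amp Lam (h' - 1 - r) b (c.src e) y then
        c.P (h' - 1 - r) (c.tgt e) b else 0) := by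
    intro a b y
    unfold Ch.OccA
    rw [← Finset.sum_range_reflect]
    refine Finset.sum_congr rfl fun r hr => Finset.sum_congr rfl fun e _ => ?_
    have hr' : h' - 1 - (h' - 1 - r) = r := by
      have := Finset.mem_range.1 hr
      omega
    rw [hr', c.rev_P, c.rev_P, c.rev_use]
    have e1 : c.rev.tgt e = c.src e := rfl
    have e2 : c.rev.src e = c.tgt e := rfl
    rw [e1, e2]
    by_cases h : c.rev.Amp Lam (h' - 1 - r) b (c.src e) y
    · rw [if_pos h, if_pos h]
      ring
    · rw [if_neg h, if_neg h, mul_zero]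
  -- one block
  have hterm : ∀ i ∈ range k, ∑ y, ∑ r ∈ range h', ∑ e,
      c.P (i * h' + r) x (c.src e) * c.SM Lam k h' x' (i * h' + r) e y =
      ∑ a, ∑ b, c.P (i * h') x a * (∑ y, c.rev.OccA Lam h' b a y) *
          c.P ((k - 1 - i) * h') b x' := by
    intro i _
    have h3 := rc_block (R := range h') (fun a => c.P (i * h') x a)
      (fun b => c.P ((k - 1 - i) * h') b x') (fun r a e => c.P r a (c.src e))
      (fun (y : Y) e => c.use y e)
      (fun r e y d => if c.rev.Amp Lam (h' - 1 - r) d (c.src e) y then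
        c.P (h' - 1 - r) (c.tgt e) d else 0)
    refine Eq.trans ?_ (h3.trans ?_)
    · refine Finset.sum_congr rfl fun y _ => Finset.sum_congr rfl fun r hr =>
        Finset.sum_congr rfl fun e _ => ?_
      have hr' := Finset.mem_range.1 hr
      have e1 : (i * h' + r) % h' = r := by
        rw [Nat.mul_comm, Nat.mul_add_mod, Nat.mod_eq_of_lt hr']
      have e2 : (i * h' + r) / h' = i := by
        rw [Nat.mul_comm, Nat.mul_add_div hh, Nat.div_eq_of_lt hr', add_zero]
      unfold Ch.SM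
      rw [e1, e2, c.P_add]
    · refine Finset.sum_congr rfl fun a _ => Finset.sum_congr rfl fun b _ => ?_
      simp only [hOcc]
  calc ∑ y, ∑ t ∈ range (k * h'), ∑ e, c.P t x (c.src e) * c.SM Lam k h' x' t e y
      = ∑ y, ∑ i ∈ range k, ∑ r ∈ range h', ∑ e,
        c.P (i * h' + r) x (c.src e) * c.SM Lam k h' x' (i * h' + r) e y :=
        Finset.sum_congr rfl fun y _ => rc_split k h' _
    _ = ∑ i ∈ range k, ∑ y, ∑ r ∈ range h', ∑ e,
        c.P (i * h' + r) x (c.src e) * c.SM Lam k h' x' (i * h' + r) e y := Finset.sum_comm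
    _ = _ := Finset.sum_congr rfl hterm

end Pool.Agent.H89.SPW
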